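import Mathlib

namespace Pool.Agent.H.MP_699b34_lc

open List

variable {α β : Type}

/-- `u` and `v` are consecutive on the path `p` -/
def Adj (p : List α) (u v : α) : Prop := (u, v) ∈ p.zip p.tail ∨ (v, u) ∈ p.zip p.tail

/-- `k` pairwise edge-disjoint Hamiltonian paths on one vertex set -/
def Valid (k : ℕ) (F : List (List α)) : Prop := F.length = k ∧ (∀ p ∈ F, p.Nodup) ∧
  (∀ p ∈ F, ∀ q ∈ F, p.Perm q) ∧ F.Pairwise fun p q => ∀ u v, Adj p u v → ¬ Adj q u v

/-- there is a global dominating set of size at most `M` -/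
def GD (F : List (List α)) (M : ℕ) : Prop := ∃ D : Finset α, (∀ x ∈ D, ∀ p ∈ F, x ∈ p) ∧ D.card ≤ M ∧
  ∀ p ∈ F, ∀ v ∈ p, v ∉ D → ∃ u ∈ D, Adj p u v

def E (p : List α) (u v : α) : Prop := (u, v) ∈ p.zip p.tail

theorem adj_iff {p : List α} {u v} : Adj p u v ↔ E p u v ∨ E p v u := Iff.rfl

@[simp] theorem E_nil {u v : α} : ¬ E [] u v := by simp [E]
@[simp] theorem E_one {a u v : α} : ¬ E [a] u v := by simp [E]
theorem E_cons {a b u v : α} {l} : E (a :: b :: l) u v ↔ u = a ∧ v = b ∨ E (b :: l) u v := by simp [E]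

theorem E_append {A B : List α} {u v} :
    E (A ++ B) u v ↔ E A u v ∨ E B u v ∨ A.getLast? = some u ∧ B.head? = some v := by
  induction A with
  | nil => simp
  | cons a A ih =>
    cases A with
    | nil => cases B <;> simp [E_cons, or_comm, eq_comm]
    | cons b A => rw [cons_append, cons_append, E_cons, ← cons_append, ih, E_cons, getLast?_cons_cons, or_assoc]

theorem E_mem {p : List α} {u v} (h : E p u v) : u ∈ p ∧ v ∈ p.tail := of_mem_zip h

theorem E_uniq {p : List α} (hp : p.Nodup) {a b c d} (h : E p a b) (k : E p c d) : a = c ↔ b = d := by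
  induction p with
  | nil => simp at h
  | cons x p ih =>
    cases p with
    | nil => simp at h
    | cons y p =>
      have := fun u v (h : E (y :: p) u v) => E_mem h
      rw [E_cons] at h k
      grind

theorem win {p : List α} (hp : p.Nodup) {a b c u} (h : E p a b) (k : E p b c) (l : Adj p u b) :
    u = a ∨ u = c :=
  l.imp (fun l => (E_uniq hp l h).2 rfl) fun l => (E_uniq hp l k).1 rfl

theorem E_map {f : α → β} {p : List α} {x y} : E (p.map f) x y ↔ ∃ u v, E p u v ∧ f u = x ∧ f v = y := by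
  simp [E, ← map_tail, zip_map]

theorem E_range {n u v} : E (range n) u v ↔ v = u + 1 ∧ v < n := by
  induction n with
  | zero => simp
  | succ n ih =>
    rw [range_succ, E_append, ih]
    cases n <;> simp [getLast?_range] <;> omega

theorem E_flat {l : List β} {f : β → List α} {h z : β → α}
    (hf : ∀ i, (f i).head? = some (h i) ∧ (f i).getLast? = some (z i)) {u v} :
    E (l.flatMap f) u v ↔ (∃ i ∈ l, E (f i) u v) ∨ ∃ i j, E l i j ∧ u = z i ∧ v = h j := by
  induction l with
  | nil => simp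
  | cons a l ih =>
    rw [flatMap_cons, E_append, ih]
    cases l with
    | nil => simp
    | cons b l =>
      simp only [E_cons, flatMap_cons, head?_append, hf, Option.some_or, Option.some.injEq, mem_cons]
      grind

theorem valid_map {f : α → β} (hf : f.Injective) {k} {F : List (List α)} (h : Valid k F) :
    Valid k (F.map (map f)) := by
  obtain ⟨a, b, c, d⟩ := h
  refine ⟨by simpa, forall_mem_map.2 fun p hp => (b p hp).map hf, forall_mem_map.2 fun p hp =>
    forall_mem_map.2 fun q hq => (c p hp q hq).map f, pairwise_map.2 (d.imp fun h x y => ?_)⟩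
  simp only [adj_iff, E_map] at *
  grind [Function.Injective]

theorem gd_map {f : α → β} (hf : f.Injective) {F : List (List α)} (h0 : F ≠ []) {M} :
    GD (F.map (map f)) M ↔ GD F M := by
  classical
  have e : ∀ p u v, Adj (map f p) (f u) (f v) ↔ Adj p u v := fun p u v => by simp [adj_iff, E_map, hf.eq_iff]
  constructor
  · rintro ⟨D, a, b, c⟩
    obtain ⟨q, hq⟩ := exists_mem_of_ne_nil _ h0
    refine ⟨D.preimage f hf.injOn, fun x hx p hp => by
      simpa [hf.eq_iff] using a _ (Finset.mem_preimage.1 hx) _ (mem_map_of_mem hp), le_trans ?_ b, fun p hp v hv h => ?_⟩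
    · exact Finset.card_le_card_of_injOn f (fun x hx => by simpa using hx) hf.injOn
    · obtain ⟨u, h1, h2⟩ := c _ (mem_map_of_mem hp) _ (mem_map_of_mem hv) (by simpa using h)
      obtain ⟨w, -, rfl⟩ := mem_map.1 (a u h1 _ (mem_map_of_mem hq))
      exact ⟨w, by simpa, (e _ _ _).1 h2⟩
  · rintro ⟨D, a, b, c⟩
    refine ⟨D.image f, Finset.forall_mem_image.2 fun x hx => forall_mem_map.2 fun p hp =>
      mem_map_of_mem (a x hx p hp), Finset.card_image_le.trans b, forall_mem_map.2 fun p hp =>
      forall_mem_map.2 fun v hv h => ?_⟩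
    obtain ⟨u, h1, h2⟩ := c p hp v hv fun k => h (Finset.mem_image_of_mem f k)
    exact ⟨f u, Finset.mem_image_of_mem f h1, (e _ _ _).2 h2⟩

theorem nodup_flat {l : List β} {f : β → List α} (hl : l.Nodup) (h1 : ∀ i ∈ l, (f i).Nodup)
    (h2 : ∀ i ∈ l, ∀ j ∈ l, ∀ v ∈ f i, v ∈ f j → i = j) : (l.flatMap f).Nodup :=
  nodup_flatMap.2 ⟨h1, hl.pairwise_of_forall_ne fun i hi j hj e _ a b => e (h2 i hi j hj _ a b)⟩

end Pool.Agent.H.MP_699b34_lc
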