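import Pool.Agent.H.MP_699b34_lc.A

namespace Pool.Agent.H.MP_699b34_lc

open List

abbrev V := ℕ × ℕ × ℕ

def lv (T : ℕ) (ℓ : ℕ → ℕ × Bool) (o : ℕ) : ℕ × ℕ := ((ℓ o).1, if (ℓ o).2 then 3 * o else 3 * (T + o) + 1)
def oc (T r : ℕ) : ℕ := if r % 3 = 0 then r / 3 else r / 3 - T
def S1 (R : ℕ) (i : ℕ × ℕ) : List V := if i.2 = 0 then (range R).map fun r => (0, i.1, r) else []
def S2 (T : ℕ) (ℓ : ℕ → ℕ × Bool) (i : ℕ × ℕ) : List V :=
  if oc T i.2 < T ∧ lv T ℓ (oc T i.2) = i then (if oc T i.2 % 3 = 0 then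
    [(0, i), (0, lv T ℓ (oc T i.2 + 1)), (0, lv T ℓ (oc T i.2 + 2))] else []) else [(0, i)]
def p1 (R : ℕ) (i : ℕ × ℕ) : List V := [(1, i), (2, i), (3, i), (4, i)] ++ (S1 R i ++
  [(5, i), (6, i), (7, i), (8, i), (9, i), (10, i), (11, i), (12, i), (13, i), (14, i), (15, i), (16, i)])
def p2 (T : ℕ) (ℓ : ℕ → ℕ × Bool) (i : ℕ × ℕ) : List V := [(11, i), (9, i), (12, i), (10, i)] ++ (S2 T ℓ i ++
  [(15, i), (13, i), (16, i), (14, i), (3, i), (1, i), (4, i), (2, i), (7, i), (5, i), (8, i), (6, i)])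
def sh (R s : ℕ) (i : ℕ × ℕ) : ℕ × ℕ := (i.1, if i.2 + s < R then i.2 + s else i.2 + s - R)
def p3 (R s : ℕ) (i : ℕ × ℕ) : List V := [(0, i), (1, sh R s i), (2, i), (4, sh R s i), (3, i), (5, sh R s i),
  (6, i), (8, sh R s i), (7, i), (10, sh R s i), (9, i), (11, sh R s i), (12, i), (14, sh R s i), (13, i),
  (15, sh R s i), (16, sh R (2 * s) i)]
def ix (X R : ℕ) : List (ℕ × ℕ) := range X ×ˢ range R

def InV (X R : ℕ) (v : V) : Prop := v.1 ≤ 16 ∧ v.2.1 < X ∧ v.2.2 < R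

variable {X R T s : ℕ} {ℓ : ℕ → ℕ × Bool}

theorem mem_ix {i} : i ∈ ix X R ↔ i.1 < X ∧ i.2 < R := by
  cases i; simp [ix]

theorem nd_ix : (ix X R).Nodup := nodup_range.product nodup_range

theorem oc_lv {o} : oc T (lv T ℓ o).2 = o := by
  simp only [oc, lv]; grind

theorem nd (A B : List ℕ) (h : (0 :: (A ++ B)).Nodup) {S : List V} (h1 : S.Nodup) (h2 : ∀ v ∈ S, v.1 = 0)
    {i} : (A.map (·, i) ++ (S ++ B.map (·, i))).Nodup := by
  rw [nodup_cons, ← nodup_map_iff (Prod.mk_left_injective i), map_append] at h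
  refine (perm_append_comm_assoc _ _ _).nodup_iff.2 (nodup_append.2 ⟨h1, h.2, fun v a w b e => h.1 ?_⟩)
  rw [← map_append] at b
  obtain ⟨t, c, rfl⟩ := mem_map.1 b
  rwa [← h2 v a, e]

theorem mem1 {i v} : v ∈ p1 R i ↔ 1 ≤ v.1 ∧ v.1 ≤ 16 ∧ v.2 = i ∨ v.1 = 0 ∧ i = (v.2.1, 0) ∧ v.2.2 < R := by
  obtain ⟨t, x, r⟩ := v
  obtain ⟨y, q⟩ := i
  simp only [p1, S1, mem_append, mem_cons, mem_ite_nil_right, mem_map, mem_range, Prod.mk.injEq, not_mem_nil]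
  grind (splits := 40)

theorem F1 : ((ix X R).flatMap (p1 R)).Nodup ∧ ∀ v, v ∈ (ix X R).flatMap (p1 R) ↔ InV X R v := by
  refine ⟨nodup_flat nd_ix (fun i _ => ?_) fun i _ j _ v => by simp only [mem1]; grind, fun v => ?_⟩
  · have : (S1 R i).Nodup := by
      unfold S1; split_ifs
      exacts [nodup_range.map fun _ _ => by simp, nodup_nil]
    exact nd [1, 2, 3, 4] [5, 6, 7, 8, 9, 10, 11, 12, 13, 14, 15, 16] (by decide) this (by grind [S1])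
  · simp only [mem_flatMap, mem1, mem_ix, InV]
    refine ⟨by grind, fun h => ?_⟩
    by_cases e : v.1 = 0
    · exact ⟨(v.2.1, 0), by grind⟩
    · exact ⟨v.2, by grind⟩

theorem mem2 (h3 : T % 3 = 0) {i v} : v ∈ p2 T ℓ i ↔ 1 ≤ v.1 ∧ v.1 ≤ 16 ∧ v.2 = i ∨ v.1 = 0 ∧
    i = if oc T v.2.2 < T ∧ lv T ℓ (oc T v.2.2) = v.2 then lv T ℓ (oc T v.2.2 / 3 * 3) else v.2 := by
  obtain ⟨t, x⟩ := v
  have : (t, x) ∈ S2 T ℓ i ↔ t = 0 ∧
      i = if oc T x.2 < T ∧ lv T ℓ (oc T x.2) = x then lv T ℓ (oc T x.2 / 3 * 3) else x := by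
    have := @oc_lv T ℓ
    simp only [S2]
    constructor
    · split_ifs <;> simp <;> grind
    · rintro ⟨rfl, rfl⟩
      split_ifs <;> simp <;> grind
  simp only [p2, mem_append, mem_cons, this, Prod.mk.injEq, not_mem_nil]
  grind (splits := 40)

theorem F2 (h3 : T % 3 = 0) (hl : ∀ o < T, (ℓ o).1 < X) (hR : 6 * T ≤ R) :
    ((ix X R).flatMap (p2 T ℓ)).Nodup ∧ ∀ v, v ∈ (ix X R).flatMap (p2 T ℓ) ↔ InV X R v := by
  have l : ∀ o < T, (lv T ℓ o).1 < X ∧ (lv T ℓ o).2 < R := fun o h => ⟨hl o h, by simp only [lv]; grind⟩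
  refine ⟨nodup_flat nd_ix (fun i _ => ?_) fun i _ j _ v => by simp only [mem2 h3]; grind, fun v => ?_⟩
  · have : (S2 T ℓ i).Nodup := by
      have := @oc_lv T ℓ
      unfold S2; split_ifs <;> simp
      grind
    exact nd [11, 9, 12, 10] [15, 13, 16, 14, 3, 1, 4, 2, 7, 5, 8, 6] (by decide) this
      (by unfold S2; split_ifs <;> simp)
  · simp only [mem_flatMap, mem2 h3, mem_ix, InV]
    refine ⟨by grind, fun h => ?_⟩
    by_cases e : v.1 = 0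
    · exact ⟨_, by grind, .inr ⟨e, rfl⟩⟩
    · exact ⟨v.2, by grind⟩

def sc (t : ℕ) : ℕ := if t = 16 then 2 else if t ∈ [1, 4, 5, 8, 10, 11, 14, 15] then 1 else 0

theorem mem3 {i v} (h : i.2 < R) : v ∈ p3 R s i ↔ v.1 ≤ 16 ∧ v.2 = sh R (sc v.1 * s) i := by
  obtain ⟨t, x⟩ := v
  have : sh R 0 i = i := by simp [sh, h]
  constructor
  · simp only [p3, mem_cons, Prod.mk.injEq, not_mem_nil, or_false]
    rintro (h | h | h | h | h | h | h | h | h | h | h | h | h | h | h | h | h) <;> simp [h, sc, this]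
  · dsimp only
    rintro ⟨h, rfl⟩
    interval_cases t <;> simp [p3, sc, this]

theorem F3 (hR : 2 * s < R) :
    ((ix X R).flatMap (p3 R s)).Nodup ∧ ∀ v, v ∈ (ix X R).flatMap (p3 R s) ↔ InV X R v := by
  have c : ∀ t, sc t * s < R := fun t => by unfold sc; split_ifs <;> omega
  refine ⟨nodup_flat nd_ix (fun i _ => by simp [p3]) fun i hi j hj v => ?_, fun v => ?_⟩
  · rw [mem_ix] at hi hj
    have := c v.1
    simp only [mem3 hi.2, mem3 hj.2, sh]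
    grind
  · have := c v.1
    simp only [mem_flatMap, mem_ix, InV]
    refine ⟨fun ⟨i, a, b⟩ => by rw [mem3 a.2, sh] at b; grind, fun h => ?_⟩
    refine ⟨(v.2.1, if sc v.1 * s ≤ v.2.2 then v.2.2 - sc v.1 * s else v.2.2 + R - sc v.1 * s), by grind, ?_⟩
    rw [mem3 (by grind), sh]
    grind

theorem E1 {u v} : E ((ix X R).flatMap (p1 R)) u v ↔
    (∃ i ∈ ix X R, E (p1 R i) u v) ∨ ∃ i j, E (ix X R) i j ∧ u = (16, i) ∧ v = (1, j) :=
  E_flat fun i => by rw [p1, getLast?_append, getLast?_append]; simp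
theorem E2 {u v} : E ((ix X R).flatMap (p2 T ℓ)) u v ↔
    (∃ i ∈ ix X R, E (p2 T ℓ i) u v) ∨ ∃ i j, E (ix X R) i j ∧ u = (6, i) ∧ v = (11, j) :=
  E_flat fun i => by rw [p2, getLast?_append, getLast?_append]; simp
theorem E3 {u v} : E ((ix X R).flatMap (p3 R s)) u v ↔
    (∃ i ∈ ix X R, E (p3 R s i) u v) ∨ ∃ i j, E (ix X R) i j ∧ u = (16, sh R (2 * s) i) ∧ v = (0, j) :=
  E_flat fun i => by simp [p3]

theorem e1 {i u v} (h : E (p1 R i) u v) : u.2 = v.2 ∧ 1 ≤ u.1 ∧ v.1 = u.1 + 1 ∨ u.1 = 4 ∧ v.1 = 0 ∨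
    u.1 = 0 ∧ v.1 = 5 ∨ u.1 = 0 ∧ v.1 = 0 ∧ v.2.2 = u.2.2 + 1 := by
  have z : ∀ v ∈ S1 R i, v.1 = 0 := by grind [S1]
  rw [p1, E_append, E_append, head?_append] at h
  obtain h | (h | h | h) | h := h
  · simp only [E_cons, E_one, or_false] at h
    casesm* _ ∨ _, _ ∧ _ <;> simp [*]
  · unfold S1 at h
    split_ifs at h
    · obtain ⟨a, b, c, rfl, rfl⟩ := E_map.1 h
      simp [E_range.1 c]
    · simp at h
  · simp only [E_cons, E_one, or_false] at h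
    casesm* _ ∨ _, _ ∧ _ <;> simp [*]
  · have := z _ (mem_of_getLast? h.1)
    obtain rfl : (5, i) = v := by simpa using h.2
    simp [this]
  · obtain rfl : (4, i) = u := by simpa using h.1
    cases e : (S1 R i).head? with
    | none => obtain rfl : (5, i) = v := by simpa [e] using h.2
              simp
    | some w => obtain rfl : w = v := by simpa [e] using h.2
                simp [z _ (mem_of_head? e)]

theorem l1 {i t} (h : t ∈ [1, 2, 3, 5, 6, 7, 8, 9, 10, 11, 12, 13, 14, 15]) : E (p1 R i) (t, i) (t + 1, i) := by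
  rw [p1, E_append, E_append]
  simp only [mem_cons, not_mem_nil, or_false] at h
  casesm* _ ∨ _ <;> simp [*, E_cons]

theorem l1a {x r} (h : r + 1 < R) : E (p1 R (x, 0)) (0, x, r) (0, x, r + 1) := by
  rw [p1, E_append, E_append]
  simp [S1, E_map, E_range, h]

theorem l1b {x r} : E (p1 (r + 1) (x, 0)) (0, x, r) (5, x, 0) := by
  rw [p1, E_append, E_append]
  simp [S1, getLast?_range]

def nx (t : ℕ) : ℕ := [0, 4, 7, 1, 2, 8, 0, 5, 6, 12, 15, 9, 10, 16, 3, 13, 14].getD t 0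

theorem e2 {i u v} (h : E (p2 T ℓ i) u v) : u.2 = i ∧ v.2 = i ∧ nx u.1 = v.1 ∧ 1 ≤ v.1 ∨
    u.1 = 10 ∧ v.1 = 0 ∨ u.1 = 0 ∧ v.1 = 15 ∨
      u.1 = 0 ∧ v.1 = 0 ∧ ∃ o, u.2 = lv T ℓ o ∧ v.2 = lv T ℓ (o + 1) := by
  unfold p2 S2 at h
  split_ifs at h <;> simp only [cons_append, nil_append, E_cons, E_one, or_false] at h <;>
    casesm* _ ∨ _, _ ∧ _ <;> simp [*, nx]
  · exact ⟨oc T i.2, by grind⟩
  · exact ⟨oc T i.2 + 1, by grind⟩

def ny (t : ℕ) : ℕ := [1, 2, 4, 5, 3, 6, 8, 10, 7, 11, 9, 12, 14, 15, 13, 16].getD t 0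

theorem e3 {i u v} (hi : i.2 < R) (h : E (p3 R s i) u v) : u.1 < 16 ∧ ny u.1 = v.1 ∧
    u.2 = sh R (sc u.1 * s) i ∧ v.2 = sh R (sc v.1 * s) i := by
  have : sh R 0 i = i := by simp [sh, hi]
  simp only [p3, E_cons, E_one, or_false] at h
  casesm* _ ∨ _, _ ∧ _ <;> simp [*, ny, sc]

theorem l2 {i t} (h : t ∈ [11, 9, 12, 15, 13, 16, 14, 3, 1, 4, 2, 7, 5, 8]) :
    E (p2 T ℓ i) (t, i) (nx t, i) := by
  rw [p2, E_append, E_append]
  simp only [mem_cons, not_mem_nil, or_false] at h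
  casesm* _ ∨ _ <;> simp [*, E_cons, nx]

theorem l2a {i} (h : ¬ (oc T i.2 < T ∧ lv T ℓ (oc T i.2) = i)) : E (p2 T ℓ i) (10, i) (0, i) := by
  simp [p2, S2, h, E_cons]

theorem l2b {o} (h : o < T) (h3 : o % 3 = 0) : E (p2 T ℓ (lv T ℓ o)) (10, lv T ℓ o) (0, lv T ℓ o) ∧
    E (p2 T ℓ (lv T ℓ o)) (0, lv T ℓ o) (0, lv T ℓ (o + 1)) ∧
    E (p2 T ℓ (lv T ℓ o)) (0, lv T ℓ (o + 1)) (0, lv T ℓ (o + 2)) ∧
    E (p2 T ℓ (lv T ℓ o)) (0, lv T ℓ (o + 2)) (15, lv T ℓ o) := by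
  simp [p2, S2, h, h3, E_cons, oc_lv]

theorem l3 {i t} (hi : i.2 < R) (h : t < 16) :
    E (p3 R s i) (t, sh R (sc t * s) i) (ny t, sh R (sc (ny t) * s) i) := by
  have : sh R 0 i = i := by simp [sh, hi]
  interval_cases t <;> simp [p3, E_cons, ny, sc, this]

def FF (k X R T : ℕ) (ℓ : ℕ → ℕ × Bool) : List (List V) := (ix X R).flatMap (p1 R) ::
  (ix X R).flatMap (p2 T ℓ) :: (range (k - 2)).map fun j => (ix X R).flatMap (p3 R (j + 1))

theorem u1 {u v} (h : E ((ix X R).flatMap (p1 R)) u v) :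
    u.2 = v.2 ∧ 1 ≤ u.1 ∧ v.1 = u.1 + 1 ∨ u.1 = 16 ∧ v.1 = 1 ∨ u.1 = 4 ∧ v.1 = 0 ∨ u.1 = 0 ∧ v.1 = 5 ∨
      u.1 = 0 ∧ v.1 = 0 ∧ v.2.2 = u.2.2 + 1 := by
  obtain ⟨i, -, h⟩ | ⟨i, j, -, rfl, rfl⟩ := E1.1 h
  · have := e1 h
    tauto
  · simp

theorem u2 {u v} (h3 : T % 3 = 0) (h : E ((ix X R).flatMap (p2 T ℓ)) u v) :
    u.2 = v.2 ∧ nx u.1 = v.1 ∧ 1 ≤ v.1 ∨ u.1 = 6 ∧ v.1 = 11 ∨ u.1 = 10 ∧ v.1 = 0 ∨ u.1 = 0 ∧ v.1 = 15 ∨
      u.1 = 0 ∧ v.1 = 0 ∧ u.2.2 ≠ v.2.2 + 1 ∧ v.2.2 ≠ u.2.2 + 1 := by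
  obtain ⟨i, -, h⟩ | ⟨i, j, -, rfl, rfl⟩ := E2.1 h
  · obtain h | h | h | ⟨a, b, o, c, d⟩ := e2 h
    iterate 3 simp [h]
    simp only [a, b, c, d, lv]
    grind
  · simp

theorem nx1 (t) : nx t ≠ t + 1 ∧ nx (t + 1) ≠ t ∨ t = 0 := by
  by_cases t < 17
  · interval_cases t <;> simp [nx]
  · rw [nx, nx, getD_eq_default, getD_eq_default] <;> simp <;> omega

theorem u3 {u v} (h0 : 0 < s) (hR : 2 * s < R) (h : E ((ix X R).flatMap (p3 R s)) u v) :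
    u.1 < 16 ∧ ny u.1 = v.1 ∧ u.2 ≠ v.2 ∨ u.1 = 16 ∧ v.1 = 0 := by
  obtain ⟨i, hi, h⟩ | h := E3.1 h
  · obtain ⟨a, b, c, d⟩ := e3 (mem_ix.1 hi).2 h
    refine .inl ⟨a, b, ?_⟩
    have := (mem_ix.1 hi).2
    rw [c, d, ← b]
    generalize u.1 = t at a
    interval_cases t <;> simp [ny, sc, sh] <;> grind
  · grind

theorem valid {k} (hk : 2 ≤ k) (h3 : T % 3 = 0) (hl : ∀ o < T, (ℓ o).1 < X) (hR : 6 * T + 2 * k ≤ R) :
    Valid k (FF k X R T ℓ) := by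
  have m : ∀ p ∈ FF k X R T ℓ, p.Nodup ∧ ∀ v, v ∈ p ↔ InV X R v := by
    simp only [FF, forall_mem_cons, forall_mem_map, mem_range]
    exact ⟨F1, F2 h3 hl (by omega), fun j _ => F3 (by omega)⟩
  refine ⟨by simp [FF]; omega, fun p h => (m p h).1, fun p hp q hq => (perm_ext_iff_of_nodup (m p hp).1
    (m q hq).1).2 fun v => by rw [(m p hp).2, (m q hq).2], ?_⟩
  have y : ∀ t < 16, ny t ≠ 0 ∧ (t = 0 → ny t = 1) ∧ (t = 6 → ny t = 8) ∧ (ny t = 6 → t = 5) ∧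
      (ny t = 16 → t = 15) ∧ ny (ny t) ≠ t := by decide
  simp only [FF, pairwise_cons, forall_mem_cons, forall_mem_map, mem_range, pairwise_map, adj_iff]
  refine ⟨⟨fun u v a b => ?_, fun j _ u v a b => ?_⟩, fun j _ u v a b => ?_,
    nodup_range.pairwise_of_forall_ne fun j hj l hl e => ?_⟩
  · have := a.imp u1 u1
    have := b.imp (u2 h3) (u2 h3)
    have := nx1 u.1
    have := nx1 v.1
    have : nx 0 = 0 ∧ nx 1 = 4 ∧ nx 16 = 14 := by decide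
    clear a b m
    grind (splits := 40)
  · have := a.imp u1 u1
    have := b.imp (u3 (by omega) (by omega)) (u3 (by omega) (by omega))
    have := y u.1
    have := y v.1
    clear a b m y
    grind (splits := 40)
  · have := a.imp (u2 h3) (u2 h3)
    have := b.imp (u3 (by omega) (by omega)) (u3 (by omega) (by omega))
    have := y u.1
    have := y v.1
    have : nx 0 = 0 ∧ nx 1 = 4 ∧ nx 16 = 14 := by decide
    clear a b m y
    grind (splits := 40)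
  rw [mem_range] at hj hl
  have k1 : ∀ u v, E ((ix X R).flatMap (p3 R (j + 1))) u v → ¬ E ((ix X R).flatMap (p3 R (l + 1))) u v := by
    intro u v a b
    obtain ⟨i, hi, a⟩ | ⟨i, i', a, c', d'⟩ := E3.1 a <;> obtain ⟨n, hn, b⟩ | ⟨n, n', b, c, d⟩ := E3.1 b
    · have hi := (mem_ix.1 hi).2
      have hn := (mem_ix.1 hn).2
      obtain ⟨a, a1, a2, a3⟩ := e3 hi a
      obtain ⟨-, -, b2, b3⟩ := e3 hn b
      rw [a2] at b2
      rw [a3, ← a1] at b3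
      generalize u.1 = t at *
      interval_cases t <;> simp [ny, sc, sh] at b2 b3 <;> grind
    · simpa [c] using (e3 (mem_ix.1 hi).2 a).1
    · simpa [c'] using (e3 (mem_ix.1 hn).2 b).1
    · obtain rfl : i' = n' := by simpa [d'] using d
      obtain rfl := (E_uniq nd_ix a b).2 rfl
      have := (mem_ix.1 (E_mem a).1).2
      simp [sh, c'] at c
      grind
  have k2 : ∀ j l, j < k - 2 → l < k - 2 → ∀ u v, E ((ix X R).flatMap (p3 R (j + 1))) u v →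
      ¬ E ((ix X R).flatMap (p3 R (l + 1))) v u := fun j l _ _ u v a b => by
    have := u3 (by omega) (by omega) a
    have := u3 (by omega) (by omega) b
    have := y u.1
    have := y v.1
    clear a b m y k1
    grind
  rintro u v (a | a) (b | b)
  exacts [k1 _ _ a b, k2 _ _ hj hl _ _ a b, k2 _ _ hj hl _ _ a b, k1 _ _ a b]

end Pool.Agent.H.MP_699b34_lc
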