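import Pool.Agent.H.MP_699b34_lc.B

namespace Pool.Agent.H.MP_699b34_lc

open List

variable {k X B T : ℕ} {ℓ : ℕ → ℕ × Bool}

theorem sound (h3 : T % 3 = 0) (hl : ∀ o < T, (ℓ o).1 < X) (hB : 2 * T ≤ B)
    (h : GD (FF k X (3 * B) T ℓ) (X * (25 * B))) : ∃ σ : ℕ → Bool, ∀ o < T, o % 3 = 0 →
      σ (ℓ o).1 = (ℓ o).2 ∨ σ (ℓ (o + 1)).1 = (ℓ (o + 1)).2 ∨ σ (ℓ (o + 2)).1 = (ℓ (o + 2)).2 := by
  classical
  obtain ⟨D, h1, h2, h4⟩ := h
  have w : ∀ p ∈ FF k X (3 * B) T ℓ, p.Nodup → ∀ a b c, E p a b → E p b c → a ∈ D ∨ b ∈ D ∨ c ∈ D :=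
    fun p hp n a b c x y => by
      by_cases e : b ∈ D
      · exact .inr (.inl e)
      obtain ⟨u, h, k⟩ := h4 p hp b (E_mem y).1 e
      obtain rfl | rfl := win n x y k
      exacts [.inl h, .inr (.inr h)]
  have w1 : ∀ i ∈ ix X (3 * B), ∀ a b c, E (p1 (3 * B) i) a b → E (p1 (3 * B) i) b c → a ∈ D ∨ b ∈ D ∨ c ∈ D :=
    fun i hi a b c x y => w _ (by simp [FF]) F1.1 a b c (E1.2 (.inl ⟨i, hi, x⟩)) (E1.2 (.inl ⟨i, hi, y⟩))
  have w2 : ∀ i ∈ ix X (3 * B), ∀ a b c, E (p2 T ℓ i) a b → E (p2 T ℓ i) b c → a ∈ D ∨ b ∈ D ∨ c ∈ D :=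
    fun i hi a b c x y => w _ (by simp [FF]) (F2 h3 hl (by omega)).1 a b c (E2.2 (.inl ⟨i, hi, x⟩))
      (E2.2 (.inl ⟨i, hi, y⟩))
  have hD : ∀ v ∈ D, InV X (3 * B) v := fun v hv => (F1.2 v).1 (h1 v hv _ (by simp [FF]))
  have c1 := Finset.mul_card_image_le_card_of_maps_to (s := D.filter (·.1 ≠ 0))
    (t := Finset.range 4 ×ˢ Finset.range X ×ˢ Finset.range (3 * B)) (f := fun v => ((v.1 - 1) / 4, v.2))
    (fun v hv => by have := hD v (Finset.mem_filter.1 hv).1; simp [InV] at *; omega) 2 (by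
      rintro ⟨n, i⟩ hn
      have hi : i ∈ ix X (3 * B) := by simp [mem_ix] at hn ⊢; exact hn.2
      have hn : n < 4 := by simp at hn; exact hn.1
      have a1 := w1 i hi (4 * n + 1, i) _ _ (l1 (by interval_cases n <;> decide))
        (l1 (by interval_cases n <;> decide))
      have a2 := w1 i hi (4 * n + 2, i) _ _ (l1 (by interval_cases n <;> decide))
        (l1 (by interval_cases n <;> decide))
      have a3 := w2 i hi (4 * n + 3, i) _ _ (l2 (by interval_cases n <;> decide))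
        (l2 (by interval_cases n <;> decide))
      have a4 := w2 i hi (4 * n + 1, i) _ _ (l2 (by interval_cases n <;> decide))
        (l2 (by interval_cases n <;> decide))
      have : nx (4 * n + 3) = 4 * n + 1 ∧ nx (4 * n + 1) = 4 * n + 4 ∧ nx (4 * n + 4) = 4 * n + 2 := by
        interval_cases n <;> decide
      simp only [this, add_assoc, Nat.reduceAdd] at a1 a2 a3 a4
      obtain ⟨a, b, h⟩ : ∃ a b, a ≠ b ∧ (0 < a ∧ a ≤ 4) ∧ (0 < b ∧ b ≤ 4) ∧ (4 * n + a, i) ∈ D ∧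
          (4 * n + b, i) ∈ D := by
        by_contra! z
        have := z 1 2; have := z 1 3; have := z 1 4; have := z 2 3; have := z 2 4; have := z 3 4
        grind
      exact Finset.one_lt_card.2 ⟨(4 * n + a, i), by simp [h]; omega, (4 * n + b, i), by simp [h]; omega,
        by simp [h]⟩)
  have s : ∀ x < X, ∀ r, r + 2 < 3 * B → (0, x, r) ∈ D ∨ (0, x, r + 1) ∈ D ∨ (0, x, r + 2) ∈ D :=
    fun x hx r hr => w1 (x, 0) (mem_ix.2 ⟨hx, by simp; omega⟩) _ _ _ (l1a (by omega)) (l1a hr)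
  have c2 := Finset.injOn_of_surjOn_of_card_le (s := D.filter (·.1 = 0))
    (t := Finset.range X ×ˢ Finset.range B) (fun v => (v.2.1, v.2.2 / 3))
    (fun v hv => by have := hD v (Finset.mem_filter.1 hv).1; simp [InV] at *; omega) (by
      rintro ⟨x, b⟩ h
      simp only [Finset.coe_product, Finset.coe_range, Set.mem_prod, Set.mem_Iio] at h
      obtain h | h | h := s x h.1 (3 * b) (by omega) <;> exact ⟨_, Finset.mem_coe.2 (Finset.mem_filter.2 ⟨h, rfl⟩), by simp <;> omega⟩) (by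
      have := Finset.card_filter_add_card_filter_not (s := D) (·.1 = 0)
      simp only [Finset.card_product, Finset.card_range, ne_eq] at *
      nlinarith)
  have u : ∀ x r r', (0, x, r) ∈ D → (0, x, r') ∈ D → r / 3 = r' / 3 → r = r' := fun x r r' a b e => by
    simpa using c2 (Finset.mem_coe.2 (Finset.mem_filter.2 ⟨a, rfl⟩))
      (Finset.mem_coe.2 (Finset.mem_filter.2 ⟨b, rfl⟩)) (by simp [e])
  have mo : ∀ x < X, ∀ a b, a ≤ b → b < B → (0, x, 3 * a) ∈ D → (0, x, 3 * b) ∈ D := fun x hx a b l => by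
    induction l with
    | refl => exact fun _ h => h
    | @step b _ ih =>
      intro hb h
      have := ih (by omega) h
      obtain h | h | h := s x hx (3 * b + 1) (by omega)
      · exact absurd (u _ _ _ this h (by omega)) (by omega)
      · exact absurd (u _ _ _ this h (by omega)) (by omega)
      · exact h
  have q : ∀ o < T, (0, lv T ℓ o) ∈ D → decide (∃ a < T, (0, (ℓ o).1, 3 * a) ∈ D) = (ℓ o).2 := fun o ho h => by
    unfold lv at h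
    cases e : (ℓ o).2
    · simp only [e, Bool.false_eq_true, if_false] at h
      refine decide_eq_false fun ⟨a, h1, h2⟩ => ?_
      simpa using u _ _ _ (mo _ (hl o ho) a (T + o) (by omega) (by omega) h2) h (by omega)
    · exact decide_eq_true ⟨o, ho, by simpa [e] using h⟩
  refine ⟨fun x => decide (∃ a < T, (0, x, 3 * a) ∈ D), fun o ho e => ?_⟩
  obtain ⟨-, a, b, -⟩ := l2b (ℓ := ℓ) ho e
  exact (w2 _ (mem_ix.2 ⟨hl o ho, by simp only [lv]; grind⟩) _ _ _ a b).imp (q o ho)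
    (Or.imp (q _ (by omega)) (q _ (by omega)))

def DD (σ : ℕ → Bool) (X B : ℕ) (D : Finset V) : Prop := ∀ t i, (t, i) ∈ D ↔ i ∈ ix X (3 * B) ∧
  (t ∈ [1, 4, 5, 8, 10, 11, 14, 15] ∨ t = 0 ∧ i.2 % 3 = if σ i.1 then 0 else 1)

variable {σ : ℕ → Bool} {D : Finset V} {t : ℕ} {i : ℕ × ℕ}

theorem c1 (d : DD σ X B D) (hi : i ∈ ix X (3 * B)) (hD : (t, i) ∉ D)
    (ht : t ∈ [0, 2, 3, 6, 7, 9, 12, 13, 16]) : ∃ u ∈ D, Adj ((ix X (3 * B)).flatMap (p1 (3 * B))) u (t, i) := by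
  have a : ∀ t ∈ [1, 5, 10, 11, 14, 15], ∃ u ∈ D, Adj ((ix X (3 * B)).flatMap (p1 (3 * B))) u (t + 1, i) :=
    fun t h => ⟨(t, i), (d _ _).2 ⟨hi, .inl (by revert t; decide)⟩,
      .inl (E1.2 (.inl ⟨i, hi, l1 (by revert t; decide)⟩))⟩
  have b : ∀ t ∈ [3, 7, 9, 13], ∃ u ∈ D, Adj ((ix X (3 * B)).flatMap (p1 (3 * B))) u (t, i) :=
    fun t h => ⟨(t + 1, i), (d _ _).2 ⟨hi, .inl (by revert t; decide)⟩,
      .inr (E1.2 (.inl ⟨i, hi, l1 (by revert t; decide)⟩))⟩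
  simp only [mem_cons, not_mem_nil, or_false] at ht
  obtain rfl | rfl | rfl | rfl | rfl | rfl | rfl | rfl | rfl := ht
  rotate_left
  iterate 8 first | exact a _ (by decide) | exact b _ (by decide)
  clear a b
  obtain ⟨x, r⟩ := i
  have hi' : x < X ∧ r < 3 * B := mem_ix.1 hi
  have h0 : (x, 0) ∈ ix X (3 * B) := mem_ix.2 ⟨hi'.1, by simp; omega⟩
  have z : r % 3 ≠ if σ x then 0 else 1 := fun h => hD ((d _ _).2 ⟨hi, .inr ⟨rfl, h⟩⟩)
  by_cases c : (r + 2) % 3 = if σ x then 0 else 1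
  · obtain ⟨r, rfl⟩ : ∃ q, r = q + 1 := ⟨r - 1, by split_ifs at c <;> omega⟩
    exact ⟨(0, x, r), (d _ _).2 ⟨mem_ix.2 ⟨hi'.1, by simp; omega⟩, .inr ⟨rfl, by rw [← c]; simp; omega⟩⟩,
      .inl (E1.2 (.inl ⟨_, h0, l1a hi'.2⟩))⟩
  by_cases c' : r + 1 < 3 * B
  · exact ⟨(0, x, r + 1), (d _ _).2 ⟨mem_ix.2 ⟨hi'.1, c'⟩, .inr ⟨rfl, by simp only; split_ifs at * <;> omega⟩⟩,
      .inr (E1.2 (.inl ⟨_, h0, l1a c'⟩))⟩
  · refine ⟨(5, x, 0), (d _ _).2 ⟨h0, by simp⟩, .inr (E1.2 (.inl ⟨_, h0, ?_⟩))⟩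
    rw [show 3 * B = r + 1 by omega]
    exact l1b

theorem c2 (l : ∀ o < T, lv T ℓ o ∈ ix X (3 * B)) (h3 : T % 3 = 0) (h : ∀ o < T, o % 3 = 0 →
      σ (ℓ o).1 = (ℓ o).2 ∨ σ (ℓ (o + 1)).1 = (ℓ (o + 1)).2 ∨ σ (ℓ (o + 2)).1 = (ℓ (o + 2)).2)
    (d : DD σ X B D) (hi : i ∈ ix X (3 * B)) (hD : (t, i) ∉ D)
    (ht : t ∈ [0, 2, 3, 6, 7, 9, 12, 13, 16]) : ∃ u ∈ D, Adj ((ix X (3 * B)).flatMap (p2 T ℓ)) u (t, i) := by
  have a : ∀ t ∈ [11, 15, 4, 8], ∃ u ∈ D, Adj ((ix X (3 * B)).flatMap (p2 T ℓ)) u (nx t, i) :=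
    fun t h => ⟨(t, i), (d _ _).2 ⟨hi, .inl (by revert t; decide)⟩,
      .inl (E2.2 (.inl ⟨i, hi, l2 (by revert t; decide)⟩))⟩
  have b : ∀ t ∈ [12, 16, 3, 7], ∃ u ∈ D, Adj ((ix X (3 * B)).flatMap (p2 T ℓ)) u (t, i) :=
    fun t h => ⟨(nx t, i), (d _ _).2 ⟨hi, .inl (by revert t; decide)⟩,
      .inr (E2.2 (.inl ⟨i, hi, l2 (by revert t; decide)⟩))⟩
  simp only [mem_cons, not_mem_nil, or_false] at ht
  obtain rfl | rfl | rfl | rfl | rfl | rfl | rfl | rfl | rfl := ht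
  rotate_left
  · exact a 4 (by decide)
  · exact b 3 (by decide)
  · exact a 8 (by decide)
  · exact b 7 (by decide)
  · exact a 11 (by decide)
  · exact b 12 (by decide)
  · exact a 15 (by decide)
  · exact b 16 (by decide)
  clear a b
  by_cases c : oc T i.2 < T ∧ lv T ℓ (oc T i.2) = i
  · obtain ⟨o, ho, e, c⟩ : ∃ o < T, o % 3 = 0 ∧ (i = lv T ℓ o ∨ i = lv T ℓ (o + 1) ∨ i = lv T ℓ (o + 2)) := by
      obtain ⟨c, e⟩ := c
      generalize oc T i.2 = n at c e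
      refine ⟨n / 3 * 3, by omega, by omega, ?_⟩
      obtain h | h | h : n = n / 3 * 3 ∨ n = n / 3 * 3 + 1 ∨ n = n / 3 * 3 + 2 := by omega
      all_goals simp [← h, e]
    obtain ⟨a1, a2, a3, a4⟩ := l2b (ℓ := ℓ) ho e
    have q : ∀ o < T, σ (ℓ o).1 = (ℓ o).2 → (0, lv T ℓ o) ∈ D := fun o ho h =>
      (d _ _).2 ⟨l o ho, .inr ⟨rfl, by simp only [lv, h]; split_ifs <;> omega⟩⟩
    obtain rfl | rfl | rfl := c
    · exact ⟨_, (d _ _).2 ⟨hi, by simp⟩, .inl (E2.2 (.inl ⟨_, l o ho, a1⟩))⟩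
    · obtain h | h | h := h o ho e
      · exact ⟨_, q o ho h, .inl (E2.2 (.inl ⟨_, l o ho, a2⟩))⟩
      · exact (hD (q _ (by omega) h)).elim
      · exact ⟨_, q _ (by omega) h, .inr (E2.2 (.inl ⟨_, l o ho, a3⟩))⟩
    · exact ⟨_, (d _ _).2 ⟨l o ho, by simp⟩, .inr (E2.2 (.inl ⟨_, l o ho, a4⟩))⟩
  · exact ⟨_, (d _ _).2 ⟨hi, by simp⟩, .inl (E2.2 (.inl ⟨_, hi, l2a c⟩))⟩

theorem c3 {s} (hs : 2 * s < 3 * B) (d : DD σ X B D) (hi : i ∈ ix X (3 * B))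
    (ht : t ∈ [0, 2, 3, 6, 7, 9, 12, 13, 16]) : ∃ u ∈ D, Adj ((ix X (3 * B)).flatMap (p3 (3 * B) s)) u (t, i) := by
  have hi' := mem_ix.1 hi
  have y : ∀ i ∈ ix X (3 * B), sh (3 * B) s i ∈ ix X (3 * B) := fun i h => by
    simp only [mem_ix, sh] at h ⊢
    split_ifs <;> omega
  have a : ∀ i ∈ ix X (3 * B), ∀ t ∈ [1, 4, 5, 8, 10, 11, 14, 15], ∀ v, E (p3 (3 * B) s i) (t, sh (3 * B) s i) v ∨
      E (p3 (3 * B) s i) v (t, sh (3 * B) s i) → ∃ u ∈ D, Adj ((ix X (3 * B)).flatMap (p3 (3 * B) s)) u v :=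
    fun i hi t h v k => ⟨_, (d _ _).2 ⟨y i hi, .inl h⟩,
      k.imp (fun k => E3.2 (.inl ⟨i, hi, k⟩)) fun k => E3.2 (.inl ⟨i, hi, k⟩)⟩
  simp only [mem_cons, not_mem_nil, or_false] at ht
  obtain rfl | rfl | rfl | rfl | rfl | rfl | rfl | rfl | rfl := ht
  · exact a i hi 1 (by decide) _ (by simp [p3, E_cons])
  · exact a i hi 1 (by decide) _ (by simp [p3, E_cons])
  · exact a i hi 4 (by decide) _ (by simp [p3, E_cons])
  · exact a i hi 5 (by decide) _ (by simp [p3, E_cons])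
  · exact a i hi 8 (by decide) _ (by simp [p3, E_cons])
  · exact a i hi 10 (by decide) _ (by simp [p3, E_cons])
  · exact a i hi 11 (by decide) _ (by simp [p3, E_cons])
  · exact a i hi 14 (by decide) _ (by simp [p3, E_cons])
  · let n : ℕ × ℕ := (i.1, if 2 * s ≤ i.2 then i.2 - 2 * s else i.2 + 3 * B - 2 * s)
    have e : sh (3 * B) (2 * s) n = i := by
      refine Prod.ext rfl ?_
      simp only [sh, n]
      split_ifs <;> omega
    exact a n (mem_ix.2 ⟨hi'.1, by simp only [n]; split_ifs <;> omega⟩) 15 (by decide) _ (by simp [p3, E_cons, e])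

theorem complete (h3 : T % 3 = 0) (hl : ∀ o < T, (ℓ o).1 < X) (hB : 2 * T + k ≤ B) (σ : ℕ → Bool)
    (h : ∀ o < T, o % 3 = 0 →
      σ (ℓ o).1 = (ℓ o).2 ∨ σ (ℓ (o + 1)).1 = (ℓ (o + 1)).2 ∨ σ (ℓ (o + 2)).1 = (ℓ (o + 2)).2) :
    GD (FF k X (3 * B) T ℓ) (X * (25 * B)) := by
  let D : Finset V := {1, 4, 5, 8, 10, 11, 14, 15} ×ˢ Finset.range X ×ˢ Finset.range (3 * B) ∪
    (Finset.range X ×ˢ Finset.range B).image fun i => (0, i.1, 3 * i.2 + if σ i.1 then 0 else 1)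
  have d : DD σ X B D := by
    rintro t ⟨x, r⟩
    simp only [D, mem_ix, Finset.mem_union, Finset.mem_product, Finset.mem_range, Finset.mem_image,
      Prod.exists, Prod.mk.injEq, Finset.mem_insert, Finset.mem_singleton, mem_cons, not_mem_nil, or_false]
    clear * -
    refine ⟨by grind, fun h => h.2.imp (fun k => ⟨k, h.1⟩) fun k => ⟨x, r / 3, by grind⟩⟩
  have m : ∀ p ∈ FF k X (3 * B) T ℓ, ∀ v, v ∈ p ↔ InV X (3 * B) v := by
    simp only [FF, forall_mem_cons, forall_mem_map, mem_range]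
    exact ⟨F1.2, (F2 h3 hl (by omega)).2, fun j _ => (F3 (by omega)).2⟩
  have l : ∀ o < T, lv T ℓ o ∈ ix X (3 * B) := fun o ho =>
    mem_ix.2 ⟨hl o ho, by simp only [lv]; split_ifs <;> omega⟩
  refine ⟨D, fun v hv p hp => (m p hp v).2 ?_, (Finset.card_union_le _ _).trans ?_, fun p hp => ?_⟩
  · obtain ⟨a, b⟩ := (d v.1 v.2).1 hv
    exact ⟨b.elim (by generalize v.1 = t; revert t; decide) fun b => by omega, mem_ix.1 a⟩
  · have := Finset.card_image_le (s := Finset.range X ×ˢ Finset.range B)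
      (f := fun i => ((0, i.1, 3 * i.2 + if σ i.1 then 0 else 1) : V))
    simp only [Finset.card_product, Finset.card_range] at *
    rw [show Finset.card {1, 4, 5, 8, 10, 11, 14, 15} = 8 from rfl]
    nlinarith
  rintro ⟨t, i⟩ hv hD
  obtain ⟨ht, hi⟩ := (m p hp _).1 hv
  replace hi : i ∈ ix X (3 * B) := mem_ix.2 hi
  have ht := (by decide : ∀ t ≤ 16, t ∉ [1, 4, 5, 8, 10, 11, 14, 15] → t ∈ [0, 2, 3, 6, 7, 9, 12, 13, 16]) t ht
    fun k => hD ((d _ _).2 ⟨hi, .inl k⟩)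
  simp only [FF, mem_cons (l := _ :: _), mem_cons (l := map _ _), mem_map, mem_range] at hp
  obtain rfl | rfl | ⟨j, hj, rfl⟩ := hp
  exacts [c1 d hi hD ht, c2 l h3 h d hi hD ht, c3 (by omega) d hi ht]

end Pool.Agent.H.MP_699b34_lc
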